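import Pool.Agent.H68.MW.PerLem

/-! # Ancestors of periodic intervals (module C2 of MP_1fe246_co) -/

set_option autoImplicit false

namespace Pool.Agent.H68.MW

/-- ends of overlapping periodic intervals coincide -/
theorem perEnd_unique {A : Type} {U : ℤ → A} {π q : ℕ} {x r r' : ℤ} (hπ : 0 < π) (hq : 0 < q)
    (h1 : Per U π x r) (h1' : U r ≠ U (r - π)) (h2 : Per U q x r') (h2' : U r' ≠ U (r' - q))
    (h3 : x + π + q ≤ r) (h4 : x + π + q ≤ r') : r = r' :=
  perEnd_eq hπ hq h1 h1' h2 h2' h3 h4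

/-- if `v j = v (j - s)` for all `j` between `p` and `q`, then `c j - c (j - s)` agrees at `p`, `q` -/
theorem Img.shift_const {B A : Type} {θ : B → List A} {v : ℤ → B} {U : ℤ → A} {c : ℤ → ℤ}
    (h : Img θ v U c) {s p q : ℤ} (hpq : p ≤ q) (hv : ∀ j, p ≤ j → j < q → v j = v (j - s)) :
    c q - c (q - s) = c p - c (p - s) := by
  obtain ⟨k, hk⟩ : ∃ k : ℕ, q = p + k := ⟨(q - p).toNat, by omega⟩
  have h1 := h.cut_eq (a := p) (b := p - s) (k := k) (by
    intro i hi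
    have := hv (p + i) (by omega) (by omega)
    rw [this]
    congr 1
    ring)
  have e : p - s + (k : ℤ) = q - s := by omega
  rw [← hk, e] at h1
  omega

theorem anc {A B : Type} [Fintype B] {θ : B → List A} (hirr : Irred θ) :
    ∃ N P : ℕ, ∀ (v : ℤ → B) (U : ℤ → A) (c : ℤ → ℤ), Img θ v U c →
    ∀ (π : ℕ) (x y : ℤ), 0 < π → Per U π x y → x + N * (π + 1) ≤ y →
    ∃ (π₁ : ℕ) (x₁ y₁ : ℤ), 0 < π₁ ∧ x₁ + π₁ ≤ y₁ ∧ Per v π₁ x₁ y₁ ∧
      c (x₁ + π₁) - c x₁ ≤ max P π ∧ x ≤ c x₁ ∧ c x₁ ≤ x + N + π ∧ y - N ≤ c y₁ ∧ c y₁ ≤ y := by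
  obtain ⟨Ns, P, hsync⟩ := sync hirr
  refine ⟨2 * Ns + 2 * tl θ + P + 1, P, ?_⟩
  intro v U c h π x y hπ hper hxy
  have hlen : x + π + (2 * Ns + 2 * tl θ + P + 1) ≤ y := by
    have h1 : (0 : ℤ) ≤ (2 * Ns + 2 * tl θ + P) * π := by positivity
    push_cast at hxy
    nlinarith
  have htl : 0 < tl θ := tl_pos h.ne (v 0)
  obtain ⟨n, hn⟩ : ∃ n : ℕ, y = x + π + n := ⟨(y - π - x).toNat, by omega⟩
  have hcom : ∀ i : ℕ, i < n → U (y - n + i) = U (y - π - n + i) := by
    intro i hi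
    have := hper (x + i) (by omega) (by omega)
    have e1 : y - (n : ℤ) + i = x + i + π := by omega
    have e2 : y - (π : ℤ) - n + i = x + i := by omega
    rw [e1, e2]
    exact this.symm
  rcases hsync v U c h y (y - π) n hcom with ⟨a, a', t, ht, ha, ha'⟩ | ⟨a₁, a₂, h12, hP, hlo, hhi, hv⟩
  · -- common cut
    have haa : a' < a := h.strictMono.lt_iff_lt.1 (by omega)
    obtain ⟨π₁, hπ₁⟩ : ∃ π₁ : ℕ, a' = a - π₁ := ⟨(a - a').toNat, by omega⟩
    subst hπ₁
    have hR : ∀ j, a ≤ j → c j ≤ y - tl θ → v j = v (j - π₁) := by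
      intro j hj hcj
      have := extR hirr h ha ha' (by
        intro i hi
        have := hcom (n - t + i) (by omega)
        have e1 : y - (n : ℤ) + ((n - t + i : ℕ) : ℤ) = y - t + i := by
          push_cast [Nat.cast_sub ht]; ring
        have e2 : y - (π : ℤ) - (n : ℤ) + ((n - t + i : ℕ) : ℤ) = y - π - t + i := by
          push_cast [Nat.cast_sub ht]; ring
        rw [e1, e2] at this
        exact this) (j - a).toNat (by
          have e : a + ((j - a).toNat : ℤ) = j := by omega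
          rw [e]; exact hcj)
      have e1 : a + ((j - a).toNat : ℤ) = j := by omega
      have e2 : a - (π₁ : ℤ) + ((j - a).toNat : ℤ) = j - π₁ := by omega
      rw [e1, e2] at this
      exact this
    have hL : ∀ j, j < a → x + π + tl θ ≤ c (j + 1) → v j = v (j - π₁) := by
      intro j hj hcj
      have := extL (g := x + π) (g' := x) (t := n - t) hirr h (a := a) (a' := a - π₁)
        (by push_cast [Nat.cast_sub ht]; omega) (by push_cast [Nat.cast_sub ht]; omega) (by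
          intro i hi
          have := hper (x + i) (by omega) (by omega)
          rw [this]
          congr 1
          ring) (a - 1 - j).toNat (by
            have e : a - ((a - 1 - j).toNat : ℤ) = j + 1 := by omega
            rw [e]; exact hcj)
      have e1 : a - ((a - 1 - j).toNat : ℤ) - 1 = j := by omega
      have e2 : a - (π₁ : ℤ) - ((a - 1 - j).toNat : ℤ) - 1 = j - π₁ := by omega
      rw [e1, e2] at this
      exact this
    obtain ⟨j₀, hj1, hj2⟩ := h.exists_block (x + π + tl θ - 1)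
    obtain ⟨m, hm1, hm2⟩ := h.exists_block (y - tl θ)
    have hj3 := h.step_le j₀
    have hm3 := h.step_le m
    have hj0m : j₀ < m + 1 := h.strictMono.lt_iff_lt.1 (by omega)
    have hall : ∀ j, j₀ ≤ j → j < m + 1 → v j = v (j - π₁) := by
      intro j hj hj'
      by_cases hja : a ≤ j
      · exact hR j hja (le_trans (h.strictMono.monotone (by omega)) hm1)
      · have := h.strictMono.monotone (show j₀ + 1 ≤ j + 1 by omega)
        exact hL j (by omega) (by omega)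
    have hD : c j₀ - c (j₀ - π₁) = π := by
      have hDa : c a - c (a - π₁) = π := by omega
      rcases le_total a j₀ with hle | hle
      · have := h.shift_const (s := π₁) hle (by
          intro j hj hj'
          exact hR j hj (le_trans (h.strictMono.monotone (by omega)) hm1))
        omega
      · have := h.shift_const (s := π₁) hle (by
          intro j hj hj'
          have := h.strictMono.monotone (show j₀ + 1 ≤ j + 1 by omega)
          exact hL j (by omega) (by omega))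
        omega
    refine ⟨π₁, j₀ - π₁, m + 1, by omega, by omega, ?_, ?_, by omega, ?_, ?_, by omega⟩
    · intro i hi hi'
      have := hall (i + π₁) (by omega) (by omega)
      rw [this]
      congr 1
      ring
    · rw [sub_add_cancel, hD]
      exact_mod_cast le_max_right P π
    · push_cast; omega
    · push_cast; omega
  · -- periodic reading
    obtain ⟨π₁, hπ₁⟩ : ∃ π₁ : ℕ, a₂ = a₁ + π₁ := ⟨(a₂ - a₁).toNat, by omega⟩
    subst hπ₁
    obtain ⟨m, hm1, hm2⟩ := h.exists_block (y - Ns)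
    have hm3 := h.step_le m
    have hle : a₁ + π₁ < m + 1 := h.strictMono.lt_iff_lt.1 (by omega)
    refine ⟨π₁, a₁, m, by omega, by omega, ?_, ?_, by omega, ?_, ?_, by omega⟩
    · intro i hi hi'
      have := hv (i - a₁).toNat (by
        have e : a₁ + (π₁ : ℤ) + ((i - a₁).toNat : ℤ) + 1 = i + π₁ + 1 := by omega
        rw [e]
        exact le_trans (h.strictMono.monotone (by omega)) hm1)
      have e1 : a₁ + ((i - a₁).toNat : ℤ) = i := by omega
      have e2 : a₁ + (π₁ : ℤ) + ((i - a₁).toNat : ℤ) = i + π₁ := by omega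
      rw [e1, e2] at this
      exact this
    · exact le_trans hP (by exact_mod_cast le_max_left P π)
    · push_cast; omega
    · push_cast; omega

/-- the right end of a periodic interval, given a long periodic ancestor -/
theorem anc_right {A B : Type} [Fintype B] {θ : B → List A} (hirr : Irred θ) {v : ℤ → B}
    {U : ℤ → A} {c : ℤ → ℤ} (h : Img θ v U c) {π π₁ : ℕ} {x r x₁ y₁ : ℤ} (hπ : 0 < π)
    (hper : Per U π x r) (hr : U r ≠ U (r - π)) (hπ₁ : 0 < π₁) (hx₁ : x₁ + π₁ ≤ y₁)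
    (hper₁ : Per v π₁ x₁ y₁) (hx : x ≤ c x₁) (h3 : c (x₁ + π₁) + π ≤ r)
    (h4 : c (x₁ + π₁) + π ≤ c y₁) :
    ∃ (r₁ : ℤ) (δ : ℕ), y₁ ≤ r₁ ∧ Per v π₁ x₁ r₁ ∧ v r₁ ≠ v (r₁ - π₁) ∧ c r₁ + δ = r ∧ δ < tl θ ∧
      c r₁ - c (r₁ - π₁) = c (x₁ + π₁) - c x₁ := by
  have hlt : c x₁ < c (x₁ + π₁) := h.strictMono (by omega)
  rcases hper₁.extend' with hinf | ⟨r₁, hr1, hr2, hr3⟩
  · exfalso
    obtain ⟨q, hq1, hq2⟩ := h.per_image (hinf (x₁ + π₁ + (r - c (x₁ + π₁) + 1).toNat)) (by omega)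
    have hadd := h.add_le (x₁ + π₁) (r - c (x₁ + π₁) + 1).toNat
    have := perEnd_le (r' := c (x₁ + π₁ + (r - c (x₁ + π₁) + 1).toNat)) (hper.mono hx le_rfl) hr hq2
      (by omega) (by omega)
    omega
  · obtain ⟨δ, hδ1, hδ2, hδ3⟩ := h.delta hirr hr3
    obtain ⟨q, hq1, hq2, hq3, hq4, hq5⟩ := h.end_image hr2 (by omega) hδ2 hδ3
    have hmono := h.strictMono.monotone hr1
    have := perEnd_eq hπ (by omega) (hper.mono hx le_rfl) hr hq4 hq5 (by omega) (by omega)
    exact ⟨r₁, δ, hr1, hr2, hr3, by omega, hδ1, by omega⟩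

/-- right end of a long run: comes from the right end of a run -/
theorem anc_end {A B : Type} [Fintype B] {θ : B → List A} (hirr : Irred θ) :
    ∃ N P : ℕ, ∀ (v : ℤ → B) (U : ℤ → A) (c : ℤ → ℤ), Img θ v U c →
    ∀ (π : ℕ) (x r : ℤ), 0 < π → Per U π x r → U r ≠ U (r - π) → x + N * (π + 1) ≤ r →
    ∃ (π₁ : ℕ) (x₁ r₁ : ℤ) (δ : ℕ), 0 < π₁ ∧ x₁ + π₁ ≤ r₁ ∧ Per v π₁ x₁ r₁ ∧
      v r₁ ≠ v (r₁ - π₁) ∧ c (x₁ + π₁) - c x₁ ≤ max P π ∧ x ≤ c x₁ ∧ c x₁ ≤ x + N + π ∧
      c r₁ + δ = r ∧ δ < tl θ := by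
  obtain ⟨N, P, hanc⟩ := anc hirr
  refine ⟨2 * N + P + 3, P, ?_⟩
  intro v U c h π x r hπ hper hr hxr
  have hπ' : (1 : ℤ) ≤ π := by exact_mod_cast hπ
  have hlen : x + N * (π + 1) ≤ r ∧ x + 2 * N + P + 3 * π ≤ r := by
    have h1 : (0 : ℤ) ≤ N * π := by positivity
    have h2 : (0 : ℤ) ≤ P * π := by positivity
    push_cast at hxr
    constructor <;> nlinarith
  obtain ⟨π₁, x₁, y₁, k1, k2, k3, k4, k5, k6, k7, k8⟩ := hanc v U c h π x r hπ hper hlen.1
  have hmax : ((max P π : ℕ) : ℤ) ≤ P + π := by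
    have : max P π ≤ P + π := max_le (by omega) (by omega)
    exact_mod_cast this
  obtain ⟨r₁, δ, g1, g2, g3, g4, g5, -⟩ := anc_right hirr h hπ hper hr k1 k2 k3 k5 (by omega)
    (by omega)
  exact ⟨π₁, x₁, r₁, δ, k1, by omega, g2, g3, k4, k5, by push_cast; omega, g4, g5⟩

/-- long maximal runs come from maximal runs -/
theorem anc_max {A B : Type} [Fintype B] {θ : B → List A} (hirr : Irred θ) :
    ∃ N P : ℕ, ∀ (v : ℤ → B) (U : ℤ → A) (c : ℤ → ℤ), Img θ v U c →
    ∀ (π : ℕ) (l r : ℤ), MaxRun U π l r → l + N * (π + 1) ≤ r →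
    ∃ (π₁ : ℕ) (l₁ r₁ : ℤ) (δ ε : ℕ), MaxRun v π₁ l₁ r₁ ∧ c (l₁ + π₁) - c l₁ ≤ max P π ∧
      c r₁ + δ = r ∧ c l₁ - ε = l ∧ δ < tl θ ∧ ε < tl θ := by
  obtain ⟨N, P, hanc⟩ := anc hirr
  refine ⟨3 * N + P + 3 + tl θ, P, ?_⟩
  intro v U c h π l r hrun hlr
  obtain ⟨hπ, -, hper, hr, hl⟩ := hrun
  have hπ' : (1 : ℤ) ≤ π := by exact_mod_cast hπ
  have hlen : l + N * (π + 1) ≤ r ∧ l + 3 * N + P + tl θ + 3 * π ≤ r := by
    have h1 : (0 : ℤ) ≤ N * π := by positivity
    have h2 : (0 : ℤ) ≤ P * π := by positivity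
    have h3 : (0 : ℤ) ≤ tl θ * π := by positivity
    push_cast at hlr
    constructor <;> nlinarith
  obtain ⟨π₁, x₁, y₁, k1, k2, k3, k4, k5, k6, k7, k8⟩ := hanc v U c h π l r hπ hper hlen.1
  have hmax : ((max P π : ℕ) : ℤ) ≤ P + π := by
    have : max P π ≤ P + π := max_le (by omega) (by omega)
    exact_mod_cast this
  obtain ⟨r₁, δ, g1, g2, g3, g4, g5, g6⟩ := anc_right hirr h hπ hper hr k1 k2 k3 k5 (by omega)
    (by omega)
  -- the left end
  have hrunL : U (-1 - -l) ≠ U (-1 - (-l - π)) := by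
    have e1 : (-1 - -l : ℤ) = l - 1 := by ring
    have e2 : (-1 - (-l - π) : ℤ) = l - 1 + π := by ring
    rw [e1, e2]; exact hl
  obtain ⟨r', ε, f1, f2, f3, f4, f5, f6⟩ := anc_right (x := -r) (r := -l) (x₁ := -r₁) (y₁ := -x₁)
    hirr.reverse h.mirror hπ hper.mirror hrunL k1 (by omega) g2.mirror
    (by rw [neg_neg]; omega)
    (by
      have e : (-(-r₁ + (π₁ : ℤ))) = r₁ - π₁ := by ring
      rw [e]; omega)
    (by
      have e : (-(-r₁ + (π₁ : ℤ))) = r₁ - π₁ := by ring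
      rw [e, neg_neg]; omega)
  rw [tl_reverse] at f5
  have f2' : Per v π₁ (-r') r₁ := by
    have := f2.mirror
    simp only [neg_neg] at this
    have e : (fun n : ℤ => v (-1 - (-1 - n))) = v := by
      funext n
      congr 1
      ring
    rw [e] at this
    exact this
  have f3' : v (-r' - 1) ≠ v (-r' - 1 + π₁) := by
    have e1 : (-1 - r' : ℤ) = -r' - 1 := by ring
    have e2 : (-1 - (r' - π₁) : ℤ) = -r' - 1 + π₁ := by ring
    rw [e1, e2] at f3
    exact f3
  have e6 : c (-r' + π₁) - c (-r') = c (x₁ + π₁) - c x₁ := by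
    have e1 : (-(r' - (π₁ : ℤ))) = -r' + π₁ := by ring
    have e2 : (-(-r₁ + (π₁ : ℤ))) = r₁ - π₁ := by ring
    rw [e1, e2, neg_neg] at f6
    omega
  refine ⟨π₁, -r', r₁, δ, ε, ⟨k1, by omega, f2', g3, f3'⟩, by rw [e6]; exact k4, g4, by omega, g5, f5⟩

end Pool.Agent.H68.MW
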