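import Pool.Agent.H53.MW.Anc
import Pool.Agent.H40.MW.BfFam

/-! # Run families (module C5 of MP_1fe246_co): maximal runs of bounded period come in finitely many
doubling families -/

set_option autoImplicit false

namespace Pool.Agent.H53.MW

open Pool.Agent.H68.MW Pool.Agent.H40.MW

/-- starts of overlapping periodic intervals coincide -/
theorem perStart_eq {A : Type} {U : ℤ → A} {π q : ℕ} {y l l' : ℤ} (hπ : 0 < π) (hq : 0 < q)
    (h1 : Per U π l y) (h1' : U (l - 1) ≠ U (l - 1 + π)) (h2 : Per U q l' y)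
    (h2' : U (l' - 1) ≠ U (l' - 1 + q)) (h3 : l + π + q ≤ y) (h4 : l' + π + q ≤ y) : l = l' := by
  have e : -l = -l' := by
    refine perEnd_eq (U := fun n => U (-1 - n)) (x := -y) hπ hq h1.mirror ?_ h2.mirror ?_
      (by omega) (by omega)
    · have e1 : (-1 - -l : ℤ) = l - 1 := by ring
      have e2 : (-1 - (-l - π) : ℤ) = l - 1 + π := by ring
      rw [e1, e2]; exact h1'
    · have e1 : (-1 - -l' : ℤ) = l' - 1 := by ring
      have e2 : (-1 - (-l' - q) : ℤ) = l' - 1 + q := by ring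
      rw [e1, e2]; exact h2'
  omega

/-- `[l, l+n)` is the image of `[l₁, l₁+M)` up to `D` letters on both sides -/
def RLift (c : ℤ → ℤ) (D : ℕ) (l₁ : ℤ) (M : ℕ) (l : ℤ) (n : ℕ) : Prop :=
  ∃ δ ε : ℕ, δ < D ∧ ε < D ∧ c (l₁ + M) + δ = l + n ∧ c l₁ - ε = l

/-- the data of a run -/
def rdata {B : Type} (v : ℤ → B) (K : ℕ) (l : ℤ) (M : ℕ) : ℕ × List B :=
  (M, win v (l - K) (M + 2 * K))

/-- the image of a run is determined by the data of the run -/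
theorem run_det {B A : Type} {θ : B → List A} {v : ℤ → B} {U : ℤ → A} {c : ℤ → ℤ}
    (h : Img θ v U c) {K D Q : ℕ} (hD : D ≤ K) {a b : ℤ} {M : ℕ} (hM : 2 * Q ≤ M)
    (w : win v (a - K) (M + 2 * K) = win v (b - K) (M + 2 * K)) {l l' : ℤ} {n n' π π' : ℕ}
    (hπ : π ≤ Q) (hπ' : π' ≤ Q) (hr : MaxRun U π l (l + n)) (hr' : MaxRun U π' l' (l' + n'))
    (L1 : RLift c D a M l n) (L2 : RLift c D b M l' n') :
    n = n' ∧ l - c (a - K) = l' - c (b - K) := by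
  obtain ⟨δ, ε, hδ, hε, x1, x2⟩ := L1
  obtain ⟨δ₂, ε₂, hδ₂, hε₂, y1, y2⟩ := L2
  obtain ⟨p1, -, p3, p4, p5⟩ := hr
  obtain ⟨q1, -, q3, q4, q5⟩ := hr'
  have i1 := cut_eq_win h w K (by omega)
  have i2 := cut_eq_win h w (K + M) (by omega)
  have q : ∀ z : ℤ, z - (K : ℤ) + K = z := fun z => by ring
  have q' : ∀ z : ℤ, z - (K : ℤ) + ((K + M : ℕ) : ℤ) = z + M := fun z => by push_cast; ring
  rw [q, q] at i1
  rw [q', q'] at i2
  have j1 := h.add_le (a - K) K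
  rw [q] at j1
  have q'' : ∀ z : ℤ, z + (M : ℤ) + K = z - K + ((M + 2 * K : ℕ) : ℤ) := fun z => by
    push_cast; ring
  have j3 := h.add_le (a + M) K
  rw [q'' a] at j3
  have m1 := h.add_le a M
  obtain ⟨s, hs⟩ : ∃ s, s = c (b - K) - c (a - K) := ⟨_, rfl⟩
  have V : ∀ z : ℤ, c a - D ≤ z → z < c (a + M) + D → U z = U (z + s) := by
    intro z h1 h2
    rw [val_eq_win h w z (by omega) (by omega)]
    congr 1
    omega
  have p3' : Per U π (l + s) (l + n + s) := p3.transfer (fun z h1 h2 => V z (by omega) (by omega))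
  have p4' : U (l + n + s) ≠ U (l + n + s - π) := by
    have e1 := V (l + n) (by omega) (by omega)
    have e2 := V (l + n - π) (by omega) (by omega)
    have e3 : l + n - (π : ℤ) + s = l + n + s - π := by ring
    rw [e3] at e2
    rw [← e1, ← e2]
    exact p4
  have p5' : U (l + s - 1) ≠ U (l + s - 1 + π) := by
    have e1 := V (l - 1) (by omega) (by omega)
    have e2 := V (l - 1 + π) (by omega) (by omega)
    have e3 : l - 1 + (π : ℤ) + s = l + s - 1 + π := by ring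
    have e4 : l - 1 + s = l + s - 1 := by ring
    rw [e3] at e2
    rw [e4] at e1
    rw [← e1, ← e2]
    exact p5
  have r1 : l + n + s = l' + n' :=
    perEnd_eq (x := c b) p1 q1 (p3'.mono (by omega) le_rfl) p4' (q3.mono (by omega) le_rfl) q4
      (by omega) (by omega)
  have r2 : l + s = l' :=
    perStart_eq (y := c (b + M)) p1 q1 (p3'.mono le_rfl (by omega)) p5' (q3.mono le_rfl (by omega))
      q5 (by omega) (by omega)
  omega

theorem rlift_length {c : ℤ → ℤ} {D : ℕ} {a : ℤ} {M : ℕ} {l : ℤ} {n : ℕ} (hL : RLift c D a M l n) :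
    c (a + M) - c a ≤ n ∧ n ≤ c (a + M) - c a + 2 * D := by
  obtain ⟨δ, ε, h1, h2, h3, h4⟩ := hL
  omega

/-- parents of long runs, in the form used here -/
theorem run_parent {A B : Type} [Fintype B] {θ : B → List A} (hirr : Irred θ) :
    ∃ P₁ : ℕ, ∀ P : ℕ, P₁ ≤ P → ∃ N : ℕ, ∀ (v : ℤ → B) (U : ℤ → A) (c : ℤ → ℤ), Img θ v U c →
    ∀ (π : ℕ) (l : ℤ) (n : ℕ), MaxRun U π l (l + n) → π ≤ P → N ≤ n →
    ∃ (π₁ : ℕ) (l₁ : ℤ) (M : ℕ), MaxRun v π₁ l₁ (l₁ + M) ∧ π₁ ≤ P ∧ RLift c (tl θ) l₁ M l n := by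
  obtain ⟨N, P₁, hanc⟩ := anc_max hirr
  refine ⟨P₁, fun P hP => ⟨N * (P + 1), ?_⟩⟩
  intro v U c h π l n hrun hπ hn
  have h0 : N * (π + 1) ≤ N * (P + 1) := Nat.mul_le_mul_left _ (by omega)
  obtain ⟨π₁, l₁, r₁, δ, ε, g1, g2, g3, g4, g5, g6⟩ := hanc v U c h π l (l + n) hrun (by
    have : ((N * (π + 1) : ℕ) : ℤ) ≤ n := by omega
    push_cast at this
    omega)
  have hlr : l₁ + π₁ ≤ r₁ := g1.2.1
  obtain ⟨M, hM⟩ : ∃ M : ℕ, r₁ = l₁ + M := ⟨(r₁ - l₁).toNat, by omega⟩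
  subst hM
  have h1 := h.add_le l₁ π₁
  have h2 : max P₁ π ≤ P := max_le hP hπ
  exact ⟨π₁, l₁, M, g1, by omega, δ, ε, g5, g6, g3, g4⟩

/-- families in `v` -/
theorem run_families_v {B : Type} [Fintype B] {τ : B → List B} {v : ℤ → B} {c : ℤ → ℤ}
    (hτ : Irred τ) (h : Img τ v v c)
    (hE : ∃ L₀ : ℕ, ∀ (x : ℤ) (n : ℕ), L₀ ≤ n → 2 * (n : ℤ) ≤ c (x + n) - c x) :
    ∃ P₁ : ℕ, ∀ P : ℕ, P₁ ≤ P → ∀ Kmin : ℕ, ∃ K : ℕ, Kmin ≤ K ∧ ∃ H : ℕ, ∀ Mmin, H ≤ Mmin →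
      ∃ C : ℕ, ∀ m : ℕ,
      {d | (∃ (π : ℕ) (l : ℤ) (M : ℕ), MaxRun v π l (l + M) ∧ π ≤ P ∧ Mmin ≤ M ∧
          d = rdata v K l M) ∧ m ≤ d.1 ∧ d.1 < 2 * m}.Finite ∧
      {d | (∃ (π : ℕ) (l : ℤ) (M : ℕ), MaxRun v π l (l + M) ∧ π ≤ P ∧ Mmin ≤ M ∧
          d = rdata v K l M) ∧ m ≤ d.1 ∧ d.1 < 2 * m}.ncard ≤ C := by
  obtain ⟨L₀, hE⟩ := hE
  obtain ⟨P₁, hpar⟩ := run_parent hτ
  refine ⟨P₁, fun P hP Kmin => ?_⟩
  obtain ⟨N, hpar⟩ := hpar P hP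
  obtain ⟨K, hK⟩ : ∃ K, K = Kmin + tl τ + L₀ := ⟨_, rfl⟩
  refine ⟨K, by omega, 2 * P + N + L₀ + 1, fun Mmin hMmin => ?_⟩
  refine H54.Mor.fam
    {d | ∃ (π : ℕ) (l : ℤ) (M : ℕ), MaxRun v π l (l + M) ∧ π ≤ P ∧ Mmin ≤ M ∧ d = rdata v K l M}
    (fun d => d.1)
    (fun d₁ d => ∃ (a : ℤ) (M : ℕ) (π : ℕ) (l : ℤ) (n : ℕ), d₁ = rdata v K a M ∧
      MaxRun v π l (l + n) ∧ π ≤ P ∧ d = rdata v K l n ∧ RLift c (tl τ) a M l n)
    ((Mmin + 3) * (tl τ + 1)) ?_ ?_ ?_ ?_ ?_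
  · rintro d₁ ⟨_, l₀, M₀, -, -, hM₀, hd₀⟩ d d' ⟨a, M, π, l, n, hd₁, hr, hπ, hd, hL⟩
      ⟨b, M', π', l', n', hd₁', hr', hπ', hd', hL'⟩
    rw [hd₀] at hd₁
    have hMM : M₀ = M := by simpa only [rdata, Prod.mk.injEq] using (congrArg Prod.fst hd₁)
    subst hMM
    rw [hd₀, hd₁] at hd₁'
    simp only [rdata, Prod.mk.injEq] at hd₁'
    obtain ⟨rfl, w⟩ := hd₁'
    obtain ⟨hn, hs⟩ := run_det h (K := K) (Q := P) (by omega) (by omega) w hπ hπ' hr hr' hL hL'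
    subst hn
    have hc1 : ∀ x : ℤ, c x + 2 * K ≤ c (x + K) := fun x => by
      have := hE x K (by omega)
      omega
    rw [hd, hd']
    simp only [rdata, Prod.mk.injEq, true_and]
    rw [win_eq_iff]
    intro i hi
    obtain ⟨δ, ε, hδ, hε, x1, x2⟩ := hL
    have a1 := hc1 (a - K)
    have e1 : a - (K : ℤ) + K = a := by ring
    rw [e1] at a1
    have a2 := hc1 (a + M₀)
    have e2 : a + (M₀ : ℤ) + K = a - K + ((M₀ + 2 * K : ℕ) : ℤ) := by push_cast; ring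
    rw [e2] at a2
    rw [val_eq_win h w (l - K + i) (by omega) (by omega)]
    congr 1
    omega
  · rintro d ⟨π, l, M, -, -, hM, rfl⟩
    simp only [rdata]
    omega
  · rintro d₁ ⟨_, l₀, M₀, -, -, hM, hd₀⟩ d ⟨a, M, π, l, n, hd₁, hr, hπ, rfl, hL⟩
    have hs : d₁.1 = M := by rw [hd₁]; rfl
    have hs₀ : d₁.1 = M₀ := by rw [hd₀]; rfl
    have h1 := rlift_length hL
    have h2 := hE a M (by omega)
    simp only [rdata]
    omega
  · rintro d ⟨π, l, n, hr, hπ, hn, rfl⟩ hsize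
    simp only [rdata] at hsize
    obtain ⟨π₁, a, M, g1, g2, hL⟩ := hpar v v c h π l n hr hπ (by omega)
    have h1 := rlift_length hL
    have h2 := h.add_le' a M
    have hM : Mmin ≤ M := by
      by_contra hlt
      push Not at hlt
      have h3 : M * tl τ ≤ Mmin * tl τ := Nat.mul_le_mul_right _ hlt.le
      have h4 : (Mmin + 3) * (tl τ + 1) = Mmin * tl τ + Mmin + 3 * tl τ + 3 := by ring
      have h5 : ((M * tl τ : ℕ) : ℤ) = (M : ℤ) * tl τ := by push_cast; ring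
      omega
    exact ⟨rdata v K a M, ⟨π₁, a, M, g1, g2, hM, rfl⟩, a, M, π, l, n, rfl, hr, hπ, rfl, hL⟩
  · set T := (Mmin + 3) * (tl τ + 1)
    refine Set.Finite.subset ((Set.finite_Iio T).prod (List.finite_length_lt B (T + 2 * K))) ?_
    rintro d ⟨⟨π, l, M, -, -, -, rfl⟩, hd⟩
    simp only [rdata] at hd ⊢
    simp only [Set.mem_prod, Set.mem_Iio, Set.mem_ofPred_eq, length_win]
    omega

/-- **C5.** lengths of maximal runs of bounded period in a dyadic interval -/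
theorem run_families {A B : Type} [Fintype A] [Fintype B] {τ : B → List B} {f : B → List A}
    {v : ℤ → B} {U : ℤ → A} {c c₀ : ℤ → ℤ} (hτ : Irred τ) (hf : Irred f) (h : Img τ v v c)
    (h₀ : Img f v U c₀)
    (hE : ∃ L₀ : ℕ, ∀ (x : ℤ) (n : ℕ), L₀ ≤ n → 2 * (n : ℤ) ≤ c (x + n) - c x) (P : ℕ) :
    ∃ C : ℕ, ∀ m : ℕ,
      {L : ℕ | m ≤ L ∧ L < 2 * m ∧ ∃ π ≤ P, ∃ l : ℤ, MaxRun U π l (l + L)}.ncard ≤ C := by
  classical
  obtain ⟨P₁, hfam⟩ := run_families_v hτ h hE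
  obtain ⟨P₂, hpar⟩ := run_parent hf
  obtain ⟨Q, hQ⟩ : ∃ Q, Q = P + P₁ + P₂ := ⟨_, rfl⟩
  obtain ⟨Nf, hpar⟩ := hpar Q (by omega)
  obtain ⟨K, hK, H, hfam⟩ := hfam Q (by omega) (tl f)
  obtain ⟨Mmin, hMmin⟩ : ∃ Mmin, Mmin = H + 2 * Q + 2 := ⟨_, rfl⟩
  obtain ⟨C, hfam⟩ := hfam Mmin (by omega)
  set S : Set (ℕ × List B) :=
    {d | ∃ (π : ℕ) (l : ℤ) (M : ℕ), MaxRun v π l (l + M) ∧ π ≤ Q ∧ Mmin ≤ M ∧ d = rdata v K l M}
    with hS
  have hfam' : ∀ m : ℕ, {d | d ∈ S ∧ m ≤ d.1 ∧ d.1 < 2 * m}.Finite ∧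
      {d | d ∈ S ∧ m ≤ d.1 ∧ d.1 < 2 * m}.ncard ≤ C := hfam
  let R : ℕ × List B → ℕ → Prop := fun d n =>
    ∃ (a : ℤ) (M : ℕ) (π : ℕ) (l : ℤ), Mmin ≤ M ∧ d = rdata v K a M ∧ MaxRun U π l (l + n) ∧
      π ≤ Q ∧ RLift c₀ (tl f) a M l n
  have hR : ∀ d n n', R d n → R d n' → n = n' := by
    rintro d n n' ⟨a, M, π, l, hM, hd₁, hr, hπ, hL⟩ ⟨b, M', π', l', hM', hd₁', hr', hπ', hL'⟩
    rw [hd₁] at hd₁'
    simp only [rdata, Prod.mk.injEq] at hd₁'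
    obtain ⟨rfl, w⟩ := hd₁'
    exact (run_det h₀ (K := K) (Q := Q) hK (by omega) w hπ hπ' hr hr' hL hL').1
  obtain ⟨D, hD⟩ : ∃ D, D = tl f := ⟨_, rfl⟩
  obtain ⟨QD, hQD⟩ : ∃ x, x = Mmin * D := ⟨_, rfl⟩
  obtain ⟨T, hT⟩ : ∃ T, T = Nf + QD + 2 * D + 1 := ⟨_, rfl⟩
  -- every long run has data
  have hdata : ∀ (n π : ℕ) (l : ℤ), MaxRun U π l (l + n) → π ≤ P → T ≤ n →
      ∃ d ∈ S, R d n ∧ d.1 ≤ n ∧ n ≤ 2 * D * d.1 := by
    intro n π l hr hπ hn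
    obtain ⟨π₁, a, M, g1, g2, hL⟩ := hpar v U c₀ h₀ π l n hr (by omega) (by omega)
    have h1 := rlift_length hL
    obtain ⟨MD, hMD⟩ : ∃ x, x = M * D := ⟨_, rfl⟩
    have h2 : c₀ (a + M) ≤ c₀ a + MD := by
      have := h₀.add_le' a M
      rw [hMD, hD]
      push_cast
      exact this
    have h2' := h₀.add_le a M
    rw [← hD] at h1
    have hM : Mmin ≤ M := by
      by_contra hlt
      push Not at hlt
      have h3 : M * D ≤ Mmin * D := Nat.mul_le_mul_right _ hlt.le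
      rw [← hMD, ← hQD] at h3
      omega
    refine ⟨rdata v K a M, ⟨π₁, a, M, g1, g2, hM, rfl⟩,
      ⟨a, M, π, l, hM, rfl, hr, by omega, hL⟩, ?_, ?_⟩
    · simp only [rdata]
      omega
    · simp only [rdata]
      have h13 : 2 * D * M = MD + MD := by rw [hMD]; ring
      have h14 : 2 * D ≤ MD := by rw [hMD]; exact Nat.mul_le_mul_right _ (by omega)
      omega
  -- dyadic scales
  obtain ⟨r, hr⟩ : ∃ r : ℕ, 4 * D ≤ 2 ^ r := ⟨4 * D, Nat.lt_two_pow_self.le⟩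
  refine ⟨T + (r + 1) * C, fun m => ?_⟩
  let g : ℕ × List B → ℕ := fun d => if hd : ∃ n, R d n then hd.choose else 0
  have hsub : {L : ℕ | m ≤ L ∧ L < 2 * m ∧ ∃ π ≤ P, ∃ l : ℤ, MaxRun U π l (l + L)} ⊆
      Set.Iio T ∪ ⋃ i ∈ Finset.range (r + 1), g '' {d | d ∈ S ∧
        2 ^ (Nat.log 2 (2 * m) - i) ≤ d.1 ∧ d.1 < 2 * 2 ^ (Nat.log 2 (2 * m) - i)} := by
    rintro n ⟨hj1, hj2, π, hπ, l, hrun⟩
    by_cases hnT : n < T
    · exact Or.inl hnT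
    right
    obtain ⟨d, hdS, hRd, hd1, hd2⟩ := hdata n π l hrun hπ (by omega)
    have hd0 : d.1 ≠ 0 := by
      intro h0
      obtain ⟨π, l, M, -, -, hM, rfl⟩ := hdS
      simp only [rdata] at h0
      omega
    have hk1 : Nat.log 2 d.1 ≤ Nat.log 2 (2 * m) := Nat.log_mono_right (by omega)
    have hk2 : Nat.log 2 (2 * m) ≤ r + Nat.log 2 d.1 := by
      have h3 : 2 * m < 2 ^ (r + Nat.log 2 d.1 + 1) := by
        calc 2 * m ≤ 4 * D * d.1 := by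
              have : 4 * D * d.1 = 2 * (2 * D * d.1) := by ring
              omega
          _ ≤ 2 ^ r * d.1 := Nat.mul_le_mul_right _ hr
          _ < 2 ^ r * 2 ^ (Nat.log 2 d.1 + 1) := by
              apply Nat.mul_lt_mul_of_pos_left (Nat.lt_pow_succ_log_self (by norm_num) _)
              positivity
          _ = 2 ^ (r + Nat.log 2 d.1 + 1) := by rw [add_assoc]; exact (pow_add _ _ _).symm
      have := Nat.log_lt_of_lt_pow (b := 2) (by omega : 2 * m ≠ 0) h3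
      omega
    simp only [Set.mem_iUnion]
    refine ⟨Nat.log 2 (2 * m) - Nat.log 2 d.1, Finset.mem_range.2 (by omega), d, ⟨hdS, ?_, ?_⟩, ?_⟩
    · have e : Nat.log 2 (2 * m) - (Nat.log 2 (2 * m) - Nat.log 2 d.1) = Nat.log 2 d.1 := by omega
      rw [e]
      exact Nat.pow_log_le_self 2 hd0
    · have e : Nat.log 2 (2 * m) - (Nat.log 2 (2 * m) - Nat.log 2 d.1) = Nat.log 2 d.1 := by omega
      rw [e]
      have := Nat.lt_pow_succ_log_self (b := 2) (by norm_num) d.1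
      rw [pow_succ] at this
      omega
    · have hex : ∃ n, R d n := ⟨n, hRd⟩
      simp only [g, dif_pos hex]
      exact hR d _ _ hex.choose_spec hRd
  have hfin : ∀ i ∈ Finset.range (r + 1), (g '' {d | d ∈ S ∧ 2 ^ (Nat.log 2 (2 * m) - i) ≤ d.1 ∧
        d.1 < 2 * 2 ^ (Nat.log 2 (2 * m) - i)}).Finite := fun i _ => (hfam' _).1.image g
  have hfinU : (⋃ i ∈ Finset.range (r + 1), g '' {d | d ∈ S ∧ 2 ^ (Nat.log 2 (2 * m) - i) ≤ d.1 ∧
        d.1 < 2 * 2 ^ (Nat.log 2 (2 * m) - i)}).Finite := by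
    exact Set.Finite.biUnion (Finset.range (r + 1)).finite_toSet hfin
  refine (Set.ncard_le_ncard hsub ((Set.finite_Iio T).union hfinU)).trans ?_
  refine (Set.ncard_union_le _ _).trans ?_
  have hcard : ∀ t : ℕ, (⋃ i ∈ Finset.range t, g '' {d | d ∈ S ∧ 2 ^ (Nat.log 2 (2 * m) - i) ≤ d.1 ∧
        d.1 < 2 * 2 ^ (Nat.log 2 (2 * m) - i)}).ncard ≤ t * C := by
    intro t
    induction t with
    | zero => simp
    | succ t ih =>
      have e : (⋃ i ∈ Finset.range (t + 1), g '' {d | d ∈ S ∧ 2 ^ (Nat.log 2 (2 * m) - i) ≤ d.1 ∧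
          d.1 < 2 * 2 ^ (Nat.log 2 (2 * m) - i)}) =
          (⋃ i ∈ Finset.range t, g '' {d | d ∈ S ∧ 2 ^ (Nat.log 2 (2 * m) - i) ≤ d.1 ∧
          d.1 < 2 * 2 ^ (Nat.log 2 (2 * m) - i)}) ∪ g '' {d | d ∈ S ∧ 2 ^ (Nat.log 2 (2 * m) - t) ≤ d.1 ∧
          d.1 < 2 * 2 ^ (Nat.log 2 (2 * m) - t)} := by
        rw [Finset.range_add_one, Finset.set_biUnion_insert, Set.union_comm]
      rw [e]
      refine (Set.ncard_union_le _ _).trans ?_
      have h1 := (Set.ncard_image_le (hfam' (2 ^ (Nat.log 2 (2 * m) - t))).1 (f := g)).trans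
        (hfam' (2 ^ (Nat.log 2 (2 * m) - t))).2
      have h2 : (t + 1) * C = t * C + C := by ring
      omega
  have hT' : (Set.Iio T).ncard = T := by
    rw [Set.ncard_eq_toFinset_card']
    simp
  have := hcard (r + 1)
  omega

end Pool.Agent.H53.MW
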